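import Mathlib

set_option autoImplicit false

/-!
# The Liouville function on the rational numbers, and large solutions of Pell-type equations
-/

namespace Pool.Agent.H37

open ArithmeticFunction

/-- The Liouville function extended to a completely multiplicative function on `ℚ`. -/
def ratLam (q : ℚ) : ℤ := liouville q.num.natAbs * liouville q.den

theorem liouville_sq {n : ℕ} (h : n ≠ 0) : liouville n * liouville n = 1 := by
  rw [liouville_apply h, ← pow_add, ← two_mul, pow_mul]
  simp

theorem liouville_pm {n : ℕ} (h : n ≠ 0) : liouville n = 1 ∨ liouville n = -1 := by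
  rw [liouville_apply h]
  exact neg_one_pow_eq_or ℤ _

theorem ratLam_mul (q r : ℚ) : ratLam (q * r) = ratLam q * ratLam r := by
  have h := Rat.mul_num_den' q r
  have h2 : liouville (q * r).num.natAbs * liouville q.den * liouville r.den =
      liouville q.num.natAbs * liouville r.num.natAbs * liouville (q * r).den := by
    have h3 := congrArg Int.natAbs h
    simp only [Int.natAbs_mul, Int.natAbs_natCast] at h3
    have h4 := congrArg (fun n : ℕ => liouville n) h3
    simpa only [liouville_apply_mul] using h4
  have hq := liouville_sq q.den_nz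
  have hr := liouville_sq r.den_nz
  have hqr := liouville_sq (q * r).den_nz
  unfold ratLam
  calc liouville (q * r).num.natAbs * liouville (q * r).den
      = (liouville (q * r).num.natAbs * liouville q.den * liouville r.den) *
          (liouville q.den * liouville r.den) * liouville (q * r).den := by
        calc _ = liouville (q * r).num.natAbs * liouville (q * r).den *
              ((liouville q.den * liouville q.den) * (liouville r.den * liouville r.den)) := by
              rw [hq, hr]; ring
          _ = _ := by ring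
    _ = (liouville q.num.natAbs * liouville r.num.natAbs * liouville (q * r).den) *
          (liouville q.den * liouville r.den) * liouville (q * r).den := by rw [h2]
    _ = liouville q.num.natAbs * liouville r.num.natAbs * (liouville q.den * liouville r.den) *
          (liouville (q * r).den * liouville (q * r).den) := by ring
    _ = _ := by rw [hqr]; ring

theorem ratLam_one : ratLam 1 = 1 := by
  simp [ratLam, liouville_apply_one]

theorem ratLam_pow (q : ℚ) (k : ℕ) : ratLam (q ^ k) = ratLam q ^ k := by
  induction k with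
  | zero => simp [ratLam_one]
  | succ k ih => rw [pow_succ, ratLam_mul, ih, pow_succ]

theorem ratLam_intCast (z : ℤ) : ratLam (z : ℚ) = liouville z.natAbs := by
  simp [ratLam, liouville_apply_one]

theorem ratLam_pm {q : ℚ} (h : q ≠ 0) : ratLam q = 1 ∨ ratLam q = -1 := by
  have h1 : q.num.natAbs ≠ 0 := by simpa using h
  rcases liouville_pm h1 with a | a <;> rcases liouville_pm q.den_nz with b | b <;>
    simp [ratLam, a, b]

theorem ratLam_two : ratLam 2 = -1 := by
  have h : ratLam ((2 : ℤ) : ℚ) = liouville (2 : ℤ).natAbs := ratLam_intCast 2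
  have h2 : liouville (2 : ℤ).natAbs = -1 := by
    rw [show (2 : ℤ).natAbs = 2 from rfl, liouville_apply (by norm_num),
      cardFactors_apply_prime Nat.prime_two]
    norm_num
  rw [h2] at h
  exact_mod_cast h

theorem ratLam_sq {q : ℚ} (h : q ≠ 0) : ratLam q * ratLam q = 1 := by
  rcases ratLam_pm h with a | a <;> simp [a]

theorem ratLam_pow_three {q : ℚ} (h : q ≠ 0) : ratLam (q ^ 3) = ratLam q := by
  rw [ratLam_pow]
  rcases ratLam_pm h with a | a <;> simp [a]

/-- Large solutions of a Pell-type equation. -/
theorem pell_large {D : ℤ} (h0 : 0 < D) (hd : ¬ IsSquare D) {H a₀ b₀ : ℤ}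
    (h : a₀ ^ 2 - D * b₀ ^ 2 = H) (hne : a₀ ≠ 0 ∨ b₀ ≠ 0) (N : ℕ) :
    ∃ a b : ℤ, (N : ℤ) ≤ a ∧ (N : ℤ) ≤ b ∧ a ^ 2 - D * b ^ 2 = H := by
  obtain ⟨x, y, hxy, hy⟩ := Pell.exists_of_not_isSquare h0 hd
  set X := |x| with hX
  set Y := |y| with hY
  have hXY : X ^ 2 - D * Y ^ 2 = 1 := by rw [hX, hY, sq_abs, sq_abs]; exact hxy
  have hY1 : 1 ≤ Y := Int.one_le_abs hy
  have hX1 : 1 ≤ X := by
    have : 0 ≤ X := abs_nonneg x
    rcases this.lt_or_eq with h1 | h1
    · omega
    · exfalso
      rw [← h1] at hXY
      nlinarith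
  have step : ∀ a b : ℤ, 0 ≤ a → 0 ≤ b → a ^ 2 - D * b ^ 2 = H →
      ∃ a' b' : ℤ, a + b ≤ a' ∧ a + b ≤ b' ∧ a' ^ 2 - D * b' ^ 2 = H := by
    intro a b ha hb hab
    refine ⟨X * a + D * Y * b, X * b + Y * a, ?_, ?_, ?_⟩
    · have h1 : a ≤ X * a := le_mul_of_one_le_left ha hX1
      have h2 : b ≤ D * Y * b := le_mul_of_one_le_left hb (by nlinarith)
      linarith
    · have h1 : b ≤ X * b := le_mul_of_one_le_left hb hX1
      have h2 : a ≤ Y * a := le_mul_of_one_le_left ha hY1
      linarith
    · calc (X * a + D * Y * b) ^ 2 - D * (X * b + Y * a) ^ 2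
          = (X ^ 2 - D * Y ^ 2) * (a ^ 2 - D * b ^ 2) := by ring
        _ = H := by rw [hXY, hab, one_mul]
  have key : ∀ N : ℕ, ∃ a b : ℤ, (N : ℤ) + 1 ≤ a ∧ (N : ℤ) + 1 ≤ b ∧ a ^ 2 - D * b ^ 2 = H := by
    intro N
    induction N with
    | zero =>
      obtain ⟨a', b', h1, h2, h3⟩ := step |a₀| |b₀| (abs_nonneg _) (abs_nonneg _)
        (by rw [sq_abs, sq_abs]; exact h)
      have h4 : 1 ≤ |a₀| + |b₀| := by
        rcases hne with h5 | h5
        · have := Int.one_le_abs h5
          have := abs_nonneg b₀
          linarith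
        · have := Int.one_le_abs h5
          have := abs_nonneg a₀
          linarith
      exact ⟨a', b', by push_cast; linarith, by push_cast; linarith, h3⟩
    | succ N ih =>
      obtain ⟨a, b, h1, h2, h3⟩ := ih
      obtain ⟨a', b', h4, h5, h6⟩ := step a b (by linarith [Int.natCast_nonneg N])
        (by linarith [Int.natCast_nonneg N]) h3
      exact ⟨a', b', by push_cast; linarith [Int.natCast_nonneg N],
        by push_cast; linarith [Int.natCast_nonneg N], h6⟩
  obtain ⟨a, b, h1, h2, h3⟩ := key N
  exact ⟨a, b, by linarith, by linarith, h3⟩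

end Pool.Agent.H37
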