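import Mathlib
import Pool.Agent.H37.RatLiouville

set_option autoImplicit false

/-!
# Norms in cubic fields and the Liouville function
-/

namespace Pool.Agent.H37

open Module

variable {K : Type*} [Field K] [Algebra ℚ K]

/-- In a cubic extension, an element of degree at most two is rational. -/
theorem mem_range_of_quadratic [FiniteDimensional ℚ K] (h3 : finrank ℚ K = 3) {z : K} {p q : ℚ}
    (h : z ^ 2 = algebraMap ℚ K p * z + algebraMap ℚ K q) : ∃ r : ℚ, algebraMap ℚ K r = z := by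
  have hz : IsIntegral ℚ z := Algebra.IsIntegral.isIntegral z
  have hd : (minpoly ℚ z).natDegree ∣ 3 := h3 ▸ minpoly.degree_dvd hz
  set P : Polynomial ℚ := Polynomial.X ^ 2 - Polynomial.C p * Polynomial.X - Polynomial.C q
    with hP
  have hdeg : P.natDegree = 2 := by rw [hP]; compute_degree!
  have hP0 : P ≠ 0 := by
    intro h0
    rw [h0] at hdeg
    simp at hdeg
  have h0 : Polynomial.aeval z P = 0 := by
    simp [hP, h]
  have hle : (minpoly ℚ z).natDegree ≤ 2 := by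
    rw [← hdeg]
    exact Polynomial.natDegree_le_of_dvd (minpoly.dvd ℚ z h0) hP0
  have h1 : (minpoly ℚ z).natDegree = 1 := by
    rcases (Nat.dvd_prime Nat.prime_three).1 hd with h1 | h1
    · exact h1
    · omega
  exact (minpoly.natDegree_eq_one_iff).1 h1

theorem norm_ratCast (h3 : finrank ℚ K = 3) (q : ℚ) :
    Algebra.norm ℚ (algebraMap ℚ K q) = q ^ 3 := by
  rw [Algebra.norm_algebraMap, h3]

theorem charpoly_lmul_eq [FiniteDimensional ℚ K] (h3 : finrank ℚ K = 3) {z : K}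
    (hz : ∀ r : ℚ, algebraMap ℚ K r ≠ z) :
    LinearMap.charpoly (Algebra.lmul ℚ K z) = minpoly ℚ z := by
  have hint : IsIntegral ℚ z := Algebra.IsIntegral.isIntegral z
  have hd : (minpoly ℚ z).natDegree ∣ 3 := h3 ▸ minpoly.degree_dvd hint
  have h1 : (minpoly ℚ z).natDegree = 3 := by
    rcases (Nat.dvd_prime Nat.prime_three).1 hd with h1 | h1
    · exfalso
      obtain ⟨r, hr⟩ := (minpoly.natDegree_eq_one_iff).1 h1
      exact hz r hr
    · exact h1
  have h2 : minpoly ℚ z ∣ LinearMap.charpoly (Algebra.lmul ℚ K z) :=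
    minpoly.dvd ℚ z (Algebra.aeval_self_charpoly_lmul z)
  have h4 : (LinearMap.charpoly (Algebra.lmul ℚ K z)).natDegree = 3 := by
    rw [LinearMap.charpoly_natDegree, h3]
  have h5 : (LinearMap.charpoly (Algebra.lmul ℚ K z)).Monic := LinearMap.charpoly_monic _
  exact Polynomial.eq_of_monic_of_dvd_of_natDegree_le (minpoly.monic hint) h5 h2 (by rw [h4, h1])

theorem eval_charpoly_lmul [FiniteDimensional ℚ K] (z : K) (x : ℚ) :
    (LinearMap.charpoly (Algebra.lmul ℚ K z)).eval x =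
      Algebra.norm ℚ (algebraMap ℚ K x - z) := by
  rw [LinearMap.eval_charpoly, Algebra.norm_apply]
  congr 1
  ext y
  simp [Algebra.smul_def]

/-- For an irrational element `z` of a cubic field, the value of the minimal polynomial of `z` at
a rational number `x` is the norm of `x - z`. -/
theorem eval_minpoly [FiniteDimensional ℚ K] (h3 : finrank ℚ K = 3) {z : K}
    (hz : ∀ r : ℚ, algebraMap ℚ K r ≠ z) (x : ℚ) :
    (minpoly ℚ z).eval x = Algebra.norm ℚ (algebraMap ℚ K x - z) := by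
  rw [← charpoly_lmul_eq h3 hz, eval_charpoly_lmul]

/-- Both values of the Liouville function are taken infinitely often by the norms of
`x - G θ`, `x ∈ ℤ`. -/
def NormTS (θ : K) (G : ℕ) : Prop :=
  ∀ e : ℤ, (e = 1 ∨ e = -1) →
    {x : ℤ | ratLam (Algebra.norm ℚ (algebraMap ℚ K (x : ℚ) - (G : K) * θ)) = e}.Infinite

theorem sub_ne_zero_of_irr {θ : K} (hθ : ∀ r : ℚ, algebraMap ℚ K r ≠ θ) {G : ℕ} (hG : 0 < G)
    (x : ℤ) : algebraMap ℚ K (x : ℚ) - (G : K) * θ ≠ 0 := by
  intro h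
  have hG' : ((G : ℚ)) ≠ 0 := by exact_mod_cast hG.ne'
  apply hθ ((x : ℚ) / G)
  have hGK : (algebraMap ℚ K (G : ℚ)) ≠ 0 := by
    rw [Ne, map_eq_zero]
    exact hG'
  rw [map_div₀, div_eq_iff hGK, map_natCast, mul_comm θ]
  exact sub_eq_zero.1 h

theorem eventually_const [FiniteDimensional ℚ K] {θ : K} (hθ : ∀ r : ℚ, algebraMap ℚ K r ≠ θ)
    {G : ℕ} (hG : 0 < G) (h : ¬ NormTS θ G) :
    ∃ c : ℤ, (c = 1 ∨ c = -1) ∧ ∃ X : ℤ, ∀ x : ℤ, X ≤ |x| →
      ratLam (Algebra.norm ℚ (algebraMap ℚ K (x : ℚ) - (G : K) * θ)) = c := by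
  unfold NormTS at h
  push Not at h
  obtain ⟨e, he, hfin⟩ := h
  refine ⟨-e, ?_, ?_⟩
  · rcases he with rfl | rfl
    · right; rfl
    · left; rfl
  · obtain ⟨X, hX⟩ := (hfin.image fun x : ℤ => |x|).bddAbove
    refine ⟨X + 1, fun x hx => ?_⟩
    have hnot : ratLam (Algebra.norm ℚ (algebraMap ℚ K (x : ℚ) - (G : K) * θ)) ≠ e := by
      intro hxe
      have := hX (Set.mem_image_of_mem (fun x : ℤ => |x|) hxe)
      linarith
    have hne : Algebra.norm ℚ (algebraMap ℚ K (x : ℚ) - (G : K) * θ) ≠ 0 :=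
      Algebra.norm_ne_zero_iff.2 (sub_ne_zero_of_irr hθ hG x)
    rcases ratLam_pm hne with h1 | h1 <;> rcases he with rfl | rfl
    · exact absurd h1 hnot
    · rw [h1]; rfl
    · rw [h1]
    · exact absurd h1 hnot

theorem NormTS.scale [FiniteDimensional ℚ K] (h3 : finrank ℚ K = 3) {θ : K} {G : ℕ}
    (h : NormTS θ G) {k : ℕ} (hk : 0 < k) : NormTS θ (k * G) := by
  intro e he
  have hkq : ((k : ℚ)) ≠ 0 := by exact_mod_cast hk.ne'
  have hk2 := ratLam_sq hkq
  have he' : ratLam (k : ℚ) * e = 1 ∨ ratLam (k : ℚ) * e = -1 := by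
    rcases ratLam_pm hkq with a | a <;> rcases he with rfl | rfl <;> simp [a]
  have hinj : Function.Injective fun x : ℤ => (k : ℤ) * x := by
    intro x y hxy
    have hk' : (k : ℤ) ≠ 0 := by exact_mod_cast hk.ne'
    exact mul_left_cancel₀ hk' hxy
  refine ((h _ he').image hinj.injOn).mono ?_
  rintro _ ⟨x, hx, rfl⟩
  change ratLam _ = _ at hx
  change ratLam _ = _
  have h1 : algebraMap ℚ K (((k : ℤ) * x : ℤ) : ℚ) - ((k * G : ℕ) : K) * θ =
      algebraMap ℚ K (k : ℚ) * (algebraMap ℚ K (x : ℚ) - (G : K) * θ) := by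
    have h2 : (((k : ℤ) * x : ℤ) : ℚ) = (k : ℚ) * (x : ℚ) := by push_cast; ring
    have h4 : algebraMap ℚ K (k : ℚ) = (k : K) := map_natCast _ _
    rw [h2, map_mul, Nat.cast_mul, h4]
    ring
  rw [h1, map_mul, norm_ratCast h3, ratLam_mul, hx, ratLam_pow_three hkq, ← mul_assoc, hk2,
    one_mul]

/-- The key relation: a rational quadratic relation between two elements of a cubic field, with a
coefficient of odd parity, forces sign changes for one of them. -/
theorem core [FiniteDimensional ℚ K] (h3 : finrank ℚ K = 3) {α β : K}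
    (hα : ∀ r : ℚ, algebraMap ℚ K r ≠ α) (hβ : ∀ r : ℚ, algebraMap ℚ K r ≠ β)
    {g v w m₀ n₀ : ℚ} (hg : 0 < g) (hL : ratLam g = -1)
    (hrel : (β + algebraMap ℚ K v) ^ 2 - algebraMap ℚ K g * (α + algebraMap ℚ K w) ^ 2 =
      algebraMap ℚ K (m₀ ^ 2 - g * n₀ ^ 2)) (hne : m₀ ≠ 0 ∨ n₀ ≠ 0) :
    ∃ G : ℕ, 0 < G ∧ (NormTS α G ∨ NormTS β G) := by
  set p : ℤ := g.num with hp
  set q : ℤ := (g.den : ℤ) with hq
  have hq0 : 0 < q := by rw [hq]; exact_mod_cast g.den_pos
  have hp0 : 0 < p := Rat.num_pos.2 hg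
  have hgpq : g = (p : ℚ) / q := by
    rw [hp, hq]
    push_cast
    exact (Rat.num_div_den g).symm
  have hqQ : (q : ℚ) ≠ 0 := by exact_mod_cast hq0.ne'
  set D : ℤ := p * q with hD
  have hD0 : 0 < D := mul_pos hp0 hq0
  have hDsq : ¬ IsSquare D := by
    rintro ⟨r, hr⟩
    have h1 : g = ((r : ℚ) / q) * ((r : ℚ) / q) := by
      rw [hgpq]
      have h2 : (p : ℚ) * q = r * r := by exact_mod_cast hr
      field_simp
      linarith
    have hr0 : ((r : ℚ) / q) ≠ 0 := by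
      intro h0
      rw [h0] at h1
      simp at h1
      exact hg.ne' h1
    rw [h1, ratLam_mul, ratLam_sq hr0] at hL
    norm_num at hL
  have hgq : g * (q : ℚ) ^ 2 = D := by
    rw [hgpq, hD]
    push_cast
    field_simp
  set ν₀ : ℚ := n₀ / q with hν
  set M : ℕ := m₀.den * ν₀.den with hM
  have hM0 : 0 < M := Nat.mul_pos m₀.den_pos ν₀.den_pos
  set a₀ : ℤ := m₀.num * ν₀.den with ha₀
  set b₀ : ℤ := ν₀.num * m₀.den with hb₀
  have hMQ : (M : ℚ) ≠ 0 := by exact_mod_cast hM0.ne'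
  have hm0den : (m₀.den : ℚ) ≠ 0 := by exact_mod_cast m₀.den_nz
  have hν0den : (ν₀.den : ℚ) ≠ 0 := by exact_mod_cast ν₀.den_nz
  have ham : (a₀ : ℚ) = M * m₀ := by
    rw [ha₀, hM]
    push_cast
    have := Rat.mul_den_eq_num m₀
    rw [← this]
    ring
  have hbn : (b₀ : ℚ) = M * ν₀ := by
    rw [hb₀, hM]
    push_cast
    have := Rat.mul_den_eq_num ν₀
    rw [← this]
    ring
  have hn₀ : n₀ = q * ν₀ := by rw [hν]; field_simp
  have hne' : a₀ ≠ 0 ∨ b₀ ≠ 0 := by
    rcases hne with h | h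
    · left
      intro h0
      rw [h0] at ham
      simp only [Int.cast_zero, zero_eq_mul] at ham
      exact ham.elim hMQ h
    · right
      intro h0
      rw [h0] at hbn
      simp only [Int.cast_zero, zero_eq_mul] at hbn
      rcases hbn with h1 | h1
      · exact hMQ h1
      · apply h
        rw [hn₀, h1, mul_zero]
  set G : ℕ := M * (v.den * w.den) with hG
  have hG0 : 0 < G := Nat.mul_pos hM0 (Nat.mul_pos v.den_pos w.den_pos)
  refine ⟨G, hG0, ?_⟩
  by_contra hcon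
  rw [not_or] at hcon
  obtain ⟨c₁, hc₁, X₁, hX₁⟩ := eventually_const hα hG0 hcon.1
  obtain ⟨c₂, hc₂, X₂, hX₂⟩ := eventually_const hβ hG0 hcon.2
  set N : ℕ := (|X₁| + |X₂| + M * w.den * |v.num| + M * v.den * |w.num|).toNat with hN
  have hNval : (N : ℤ) = |X₁| + |X₂| + M * w.den * |v.num| + M * v.den * |w.num| := by
    rw [hN]
    exact Int.toNat_of_nonneg (by positivity)
  obtain ⟨a, b, haN, hbN, hab⟩ := pell_large hD0 hDsq (H := a₀ ^ 2 - D * b₀ ^ 2) rfl hne' N
  have ha0 : 0 ≤ a := le_trans (by positivity) haN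
  have hb0 : 0 ≤ b := le_trans (by positivity) hbN
  set m : ℚ := a / M with hm
  set n : ℚ := q * (b / M) with hn
  have hmn : m ^ 2 - g * n ^ 2 = m₀ ^ 2 - g * n₀ ^ 2 := by
    have h1 : (a : ℚ) ^ 2 - D * (b : ℚ) ^ 2 = (a₀ : ℚ) ^ 2 - D * (b₀ : ℚ) ^ 2 := by
      exact_mod_cast hab
    rw [ham, hbn] at h1
    have h2 : m ^ 2 - g * n ^ 2 = ((a : ℚ) ^ 2 - D * (b : ℚ) ^ 2) / (M : ℚ) ^ 2 := by
      rw [hm, hn, ← hgq]
      field_simp
    have h3' : m₀ ^ 2 - g * n₀ ^ 2 =
        (((M : ℚ) * m₀) ^ 2 - D * ((M : ℚ) * ν₀) ^ 2) / (M : ℚ) ^ 2 := by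
      rw [hn₀, ← hgq]
      field_simp
    rw [h2, h3', h1]
  set x₁ : ℤ := a * (v.den * w.den) - M * w.den * v.num with hx₁
  set x₂ : ℤ := -(a * (v.den * w.den)) - M * w.den * v.num with hx₂
  set z₁ : ℤ := q * b * (v.den * w.den) - M * v.den * w.num with hz₁
  set z₂ : ℤ := -(q * b * (v.den * w.den)) - M * v.den * w.num with hz₂
  have hvd : (v.den : ℚ) * v = v.num := by rw [mul_comm]; exact Rat.mul_den_eq_num v
  have hwd : (w.den : ℚ) * w = w.num := by rw [mul_comm]; exact Rat.mul_den_eq_num w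
  have hx₁' : (x₁ : ℚ) = G * (m - v) := by
    rw [hx₁, hG, hm]
    push_cast
    rw [← hvd]
    field_simp
  have hx₂' : (x₂ : ℚ) = G * (-m - v) := by
    rw [hx₂, hG, hm]
    push_cast
    rw [← hvd]
    field_simp
  have hz₁' : (z₁ : ℚ) = G * (n - w) := by
    rw [hz₁, hG, hn]
    push_cast
    rw [← hwd]
    field_simp
  have hz₂' : (z₂ : ℚ) = G * (-n - w) := by
    rw [hz₂, hG, hn]
    push_cast
    rw [← hwd]
    field_simp
  have hden1 : 1 ≤ (v.den : ℤ) * w.den := by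
    have : 0 < (v.den : ℤ) * w.den := by
      have h1 : 0 < (v.den : ℤ) := by exact_mod_cast v.den_pos
      have h2 : 0 < (w.den : ℤ) := by exact_mod_cast w.den_pos
      positivity
    omega
  have hA : a ≤ a * (v.den * w.den) := le_mul_of_one_le_right ha0 hden1
  have hB : b ≤ q * b * (v.den * w.den) := by
    have h1 : b ≤ q * b := le_mul_of_one_le_left hb0 (by omega)
    have h2 : q * b ≤ q * b * (v.den * w.den) :=
      le_mul_of_one_le_right (by positivity) hden1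
    linarith
  have hV : |(M : ℤ) * w.den * v.num| = M * w.den * |v.num| := by
    rw [abs_mul, abs_of_nonneg (by positivity : (0 : ℤ) ≤ M * w.den)]
  have hW : |(M : ℤ) * v.den * w.num| = M * v.den * |w.num| := by
    rw [abs_mul, abs_of_nonneg (by positivity : (0 : ℤ) ≤ M * v.den)]
  have hV1 := abs_le.1 (le_of_eq hV)
  have hW1 := abs_le.1 (le_of_eq hW)
  have hWn : 0 ≤ (M : ℤ) * v.den * |w.num| := by positivity
  have hVn : 0 ≤ (M : ℤ) * w.den * |v.num| := by positivity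
  have e1 : X₂ ≤ |x₁| := by
    refine le_trans ?_ (le_abs_self _)
    have := le_abs_self X₂
    have := abs_nonneg X₁
    linarith [hV1.2]
  have e2 : X₂ ≤ |x₂| := by
    refine le_trans ?_ (neg_le_abs _)
    have := le_abs_self X₂
    have := abs_nonneg X₁
    linarith [hV1.1]
  have e3 : X₁ ≤ |z₁| := by
    refine le_trans ?_ (le_abs_self _)
    have := le_abs_self X₁
    have := abs_nonneg X₂
    linarith [hW1.2]
  have e4 : X₁ ≤ |z₂| := by
    refine le_trans ?_ (neg_le_abs _)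
    have := le_abs_self X₁
    have := abs_nonneg X₂
    linarith [hW1.1]
  have f1 := hX₂ x₁ e1
  have f2 := hX₂ x₂ e2
  have f3 := hX₁ z₁ e3
  have f4 := hX₁ z₂ e4
  have hid : (algebraMap ℚ K (x₁ : ℚ) - (G : K) * β) * (algebraMap ℚ K (x₂ : ℚ) - (G : K) * β) =
      algebraMap ℚ K g * ((algebraMap ℚ K (z₁ : ℚ) - (G : K) * α) *
        (algebraMap ℚ K (z₂ : ℚ) - (G : K) * α)) := by
    rw [hx₁', hx₂', hz₁', hz₂']
    have h5 := congrArg (algebraMap ℚ K) hmn
    simp only [map_mul, map_sub, map_neg, map_pow, map_natCast] at h5 hrel ⊢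
    linear_combination (G : K) ^ 2 * hrel - (G : K) ^ 2 * h5
  have hnorm := congrArg (fun t => ratLam (Algebra.norm ℚ t)) hid
  simp only [map_mul, ratLam_mul] at hnorm
  rw [f1, f2, f3, f4, norm_ratCast h3, ratLam_pow_three hg.ne', hL] at hnorm
  rcases hc₁ with rfl | rfl <;> rcases hc₂ with rfl | rfl <;> norm_num at hnorm

end Pool.Agent.H37
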