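import Mathlib
import Pool.Agent.H37.CubicNorm

set_option autoImplicit false

/-!
# Two directions in a cubic field are always related
-/

namespace Pool.Agent.H37

open Module

variable {K : Type*} [Field K] [Algebra ℚ K]

/-- A positive rational `g` of odd parity for which the pencil of conics has a rational point. -/
theorem exists_param {A₂ B₁ C₁ C₂ : ℚ} (hA : A₂ ≠ 0) (hB : B₁ ≠ 0) :
    ∃ g s t : ℚ, 0 < g ∧ ratLam g = -1 ∧
      g * (2 * B₁ * t - C₂ - s ^ 2) = C₁ + 2 * A₂ * s - t ^ 2 := by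
  obtain ⟨t, ht1, ht2⟩ : ∃ t : ℚ, C₁ - t ^ 2 < 0 ∧ 2 * B₁ * t - C₂ ≤ 0 := by
    set T : ℚ := 1 + |C₁| + |C₂| / (2 * |B₁|) with hT
    have hBpos : 0 < |B₁| := abs_pos.2 hB
    have hT1 : 1 ≤ T := by
      have h1 : 0 ≤ |C₁| := abs_nonneg _
      have h2 : 0 ≤ |C₂| / (2 * |B₁|) := by positivity
      linarith
    have hT2 : C₁ < T ^ 2 := by
      have h2 : 0 ≤ |C₂| / (2 * |B₁|) := by positivity
      have h3 := le_abs_self C₁
      have h4 : C₁ < T := by linarith
      nlinarith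
    have hT3 : |C₂| ≤ 2 * |B₁| * T := by
      have h1 : 0 ≤ |C₁| := abs_nonneg _
      have h2 : 2 * |B₁| * (|C₂| / (2 * |B₁|)) = |C₂| := by field_simp
      rw [hT]
      nlinarith
    have h5 := neg_abs_le C₂
    rcases lt_or_gt_of_ne hB with h | h
    · refine ⟨T, by linarith, ?_⟩
      rw [abs_of_neg h] at hT3
      linarith
    · refine ⟨-T, by rw [neg_sq]; linarith, ?_⟩
      rw [abs_of_pos h] at hT3
      linarith
  set u : ℚ := C₁ - t ^ 2 with hu
  set s : ℚ := u / (6 * A₂) with hs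
  set L : ℚ := 2 * B₁ * t - C₂ - s ^ 2 with hL
  have hu0 : u ≠ 0 := ht1.ne
  have hs0 : s ≠ 0 := by rw [hs]; positivity
  have hL0 : L < 0 := by
    have : 0 < s ^ 2 := by positivity
    linarith
  have hAs : 2 * A₂ * s = u / 3 := by rw [hs]; field_simp; ring
  set g : ℚ := 2 * u / (3 * L) with hg
  have hg0 : 0 < g := by
    rw [hg]
    apply div_pos_of_neg_of_neg <;> linarith
  rcases ratLam_pm hg0.ne' with h | h
  · refine ⟨2 * g, s, t, by linarith, by rw [ratLam_mul, ratLam_two, h]; norm_num, ?_⟩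
    rw [← hL, hAs, hg]
    have : L ≠ 0 := hL0.ne
    field_simp
    linarith
  · refine ⟨g, -s, t, hg0, h, ?_⟩
    have h1 : 2 * A₂ * -s = -(u / 3) := by rw [← hAs]; ring
    rw [neg_sq, ← hL, h1, hg]
    have : L ≠ 0 := hL0.ne
    field_simp
    linarith

/-- If `α`, `β` are irrational elements of a cubic field with `α² ∈ ℚ + ℚ α + ℚ β`, with nonzero
coefficient of `β`, and similarly for `β²`, then one of them has two-sided norms. -/
theorem two_directions [FiniteDimensional ℚ K] (h3 : finrank ℚ K = 3) {α β : K}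
    (hα : ∀ r : ℚ, algebraMap ℚ K r ≠ α) (hβ : ∀ r : ℚ, algebraMap ℚ K r ≠ β)
    {t₁ A₁ B₁ t₂ A₂ B₂ : ℚ}
    (h1 : α ^ 2 = algebraMap ℚ K t₁ + algebraMap ℚ K A₁ * α + algebraMap ℚ K B₁ * β)
    (h2 : β ^ 2 = algebraMap ℚ K t₂ + algebraMap ℚ K A₂ * α + algebraMap ℚ K B₂ * β) :
    ∃ G : ℕ, 0 < G ∧ (NormTS α G ∨ NormTS β G) := by
  have hB : B₁ ≠ 0 := by
    rintro rfl
    obtain ⟨r, hr⟩ := mem_range_of_quadratic h3 (z := α) (p := A₁) (q := t₁) (by
      rw [h1, map_zero]; ring)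
    exact hα r hr
  have hA : A₂ ≠ 0 := by
    rintro rfl
    obtain ⟨r, hr⟩ := mem_range_of_quadratic h3 (z := β) (p := B₂) (q := t₂) (by
      rw [h2, map_zero]; ring)
    exact hβ r hr
  obtain ⟨g, s, t, hg, hL, hgst⟩ := exists_param (C₁ := B₂ ^ 2 + 4 * t₂ + 2 * A₁ * A₂)
    (C₂ := -2 * B₁ * B₂ - 4 * t₁ - A₁ ^ 2) hA hB
  have hg0 : g ≠ 0 := hg.ne'
  set v : ℚ := (g * B₁ - B₂) / 2 with hv
  set w : ℚ := (A₂ - g * A₁) / (2 * g) with hw
  set m₀ : ℚ := (B₁ * g + t) / 2 with hm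
  set n₀ : ℚ := (A₂ + s * g) / (2 * g) with hn
  have ev : B₂ + 2 * v - g * B₁ = 0 := by rw [hv]; ring
  have ew : A₂ - g * A₁ - 2 * g * w = 0 := by rw [hw]; field_simp; ring
  have ec : t₂ + v ^ 2 - g * t₁ - g * w ^ 2 = m₀ ^ 2 - g * n₀ ^ 2 := by
    rw [hv, hw, hm, hn]
    field_simp
    linear_combination (-g) * hgst
  have hrel : (β + algebraMap ℚ K v) ^ 2 - algebraMap ℚ K g * (α + algebraMap ℚ K w) ^ 2 =
      algebraMap ℚ K (m₀ ^ 2 - g * n₀ ^ 2) := by
    rw [← ec]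
    have ev' := congrArg (algebraMap ℚ K) ev
    have ew' := congrArg (algebraMap ℚ K) ew
    simp only [map_mul, map_add, map_sub, map_pow, map_zero, map_ofNat] at ev' ew' ⊢
    linear_combination h2 - algebraMap ℚ K g * h1 + β * ev' + α * ew'
  refine core h3 hα hβ hg hL hrel ?_
  by_contra hcon
  rw [not_or, not_not, not_not] at hcon
  rw [hcon.1, hcon.2] at hrel
  simp only [ne_eq, OfNat.ofNat_ne_zero, not_false_eq_true, zero_pow, mul_zero, sub_zero,
    map_zero] at hrel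
  have hαw : α + algebraMap ℚ K w ≠ 0 := by
    intro h0
    apply hα (-w)
    rw [map_neg]
    linear_combination -h0
  have hz : ((β + algebraMap ℚ K v) / (α + algebraMap ℚ K w)) ^ 2 =
      algebraMap ℚ K 0 * ((β + algebraMap ℚ K v) / (α + algebraMap ℚ K w)) +
        algebraMap ℚ K g := by
    rw [map_zero, zero_mul, zero_add, div_pow, div_eq_iff (pow_ne_zero 2 hαw)]
    linear_combination hrel
  obtain ⟨r, hr⟩ := mem_range_of_quadratic h3 hz
  have hr2 : r * r = g := by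
    apply (algebraMap ℚ K).injective
    rw [map_mul, hr]
    rw [map_zero, zero_mul, zero_add] at hz
    rw [← hz]
    ring
  have hr0 : r ≠ 0 := by
    rintro rfl
    rw [mul_zero] at hr2
    exact hg0 hr2.symm
  rw [← hr2, ratLam_mul, ratLam_sq hr0] at hL
  norm_num at hL

end Pool.Agent.H37
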