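import Mathlib
import Pool.Agent.H37.CubicRelation

set_option autoImplicit false

/-!
# Linear independence in cubic fields
-/

namespace Pool.Agent.H37

open Module

variable {K : Type*} [Field K] [Algebra ℚ K]

/-- If `1, α, β` are linearly independent in a cubic field, every element is a rational
combination of them. -/
theorem exists_comb (h3 : finrank ℚ K = 3) {α β : K}
    (h : LinearIndependent ℚ ![1, α, β]) (z : K) :
    ∃ t A B : ℚ, z = algebraMap ℚ K t + algebraMap ℚ K A * α + algebraMap ℚ K B * β := by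
  have hcard : Fintype.card (Fin 3) = finrank ℚ K := by rw [h3]; simp
  set b := basisOfLinearIndependentOfCardEqFinrank h hcard with hb
  have hz := b.sum_repr z
  rw [Fin.sum_univ_three] at hz
  refine ⟨b.repr z 0, b.repr z 1, b.repr z 2, ?_⟩
  have e : ⇑b = ![1, α, β] := coe_basisOfLinearIndependentOfCardEqFinrank h hcard
  have e0 : b 0 = 1 := by rw [e]; rfl
  have e1 : b 1 = α := by rw [e]; rfl
  have e2 : b 2 = β := by rw [e]; rfl
  rw [e0, e1, e2] at hz
  simp only [Algebra.smul_def, mul_one] at hz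
  exact hz.symm

theorem irr_of_linearIndependent {α β : K} (h : LinearIndependent ℚ ![1, α, β]) :
    (∀ r : ℚ, algebraMap ℚ K r ≠ α) ∧ (∀ r : ℚ, algebraMap ℚ K r ≠ β) := by
  rw [Fintype.linearIndependent_iff] at h
  constructor
  · intro r hr
    have := h ![r, -1, 0] (by
      rw [Fin.sum_univ_three]
      simp [Algebra.smul_def, hr]) 1
    simp at this
  · intro r hr
    have := h ![r, 0, -1] (by
      rw [Fin.sum_univ_three]
      simp [Algebra.smul_def, hr]) 2
    simp at this

/-- In a cyclic cubic field, `1`, `α` and a conjugate of `α` are linearly independent. -/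
theorem linearIndependent_conj [FiniteDimensional ℚ K] (h3 : finrank ℚ K = 3) [IsGalois ℚ K]
    {α : K} (hα : ∀ r : ℚ, algebraMap ℚ K r ≠ α) :
    ∃ σ : K ≃ₐ[ℚ] K, LinearIndependent ℚ ![1, α, σ α] := by
  obtain ⟨σ, hσ⟩ : ∃ σ : K ≃ₐ[ℚ] K, σ α ≠ α := by
    by_contra hcon
    push Not at hcon
    obtain ⟨r, hr⟩ := (IsGalois.mem_range_algebraMap_iff_fixed α).2 hcon
    exact hα r hr
  refine ⟨σ, ?_⟩
  have hcard : Nat.card (K ≃ₐ[ℚ] K) = 3 := by rw [IsGalois.card_aut_eq_finrank, h3]
  have hσ3 : σ ^ 3 = 1 := by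
    rw [← hcard]
    exact pow_card_eq_one'
  have hσα : σ (σ (σ α)) = α := by
    have : (σ ^ 3) α = α := by rw [hσ3]; rfl
    rw [pow_succ, pow_succ, pow_one] at this
    exact this
  rw [Fintype.linearIndependent_iff]
  intro c hc
  rw [Fin.sum_univ_three] at hc
  have e0 : (![1, α, σ α] : Fin 3 → K) 0 = 1 := rfl
  have e1 : (![1, α, σ α] : Fin 3 → K) 1 = α := rfl
  have e2 : (![1, α, σ α] : Fin 3 → K) 2 = σ α := rfl
  rw [e0, e1, e2] at hc
  simp only [Algebra.smul_def, mul_one] at hc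
  have hc2 : c 2 = 0 := by
    by_contra h2
    have h2' : algebraMap ℚ K (c 2) ≠ 0 := by rwa [Ne, map_eq_zero]
    set p : ℚ := -(c 1) / c 2 with hp
    set q : ℚ := -(c 0) / c 2 with hq
    have hlin : σ α = algebraMap ℚ K p * α + algebraMap ℚ K q := by
      rw [hp, hq, map_div₀, map_div₀, map_neg, map_neg]
      field_simp
      linear_combination hc
    have s2 : σ (σ α) = algebraMap ℚ K p * (σ α) + algebraMap ℚ K q := by
      conv_lhs => rw [hlin]
      rw [map_add, map_mul, AlgEquiv.commutes, AlgEquiv.commutes]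
    have s3 : σ (σ (σ α)) = algebraMap ℚ K p * (σ (σ α)) + algebraMap ℚ K q := by
      conv_lhs => rw [s2]
      rw [map_add, map_mul, AlgEquiv.commutes, AlgEquiv.commutes]
    rw [hσα, s2, hlin] at s3
    have h4 : algebraMap ℚ K (1 - p ^ 3) * α = algebraMap ℚ K ((p ^ 2 + p + 1) * q) := by
      simp only [map_mul, map_sub, map_add, map_pow, map_one]
      linear_combination s3
    have hp3 : 1 - p ^ 3 = 0 := by
      by_contra h5
      have h5' : algebraMap ℚ K (1 - p ^ 3) ≠ 0 := by rwa [Ne, map_eq_zero]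
      apply hα ((p ^ 2 + p + 1) * q / (1 - p ^ 3))
      rw [map_div₀, ← h4]
      field_simp
    have hp1 : p = 1 := by
      have h6 : (p - 1) * (p ^ 2 + p + 1) = 0 := by linear_combination -hp3
      rcases mul_eq_zero.1 h6 with h7 | h7
      · linarith
      · exfalso
        nlinarith [sq_nonneg (p + 1 / 2)]
    rw [hp3, map_zero, zero_mul, hp1] at h4
    have hq0 : q = 0 := by
      have h8 := h4.symm
      rw [map_eq_zero] at h8
      linarith
    apply hσ
    rw [hlin, hp1, hq0, map_one, map_zero, one_mul, add_zero]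
  rw [hc2, map_zero, zero_mul, add_zero] at hc
  have hc1 : c 1 = 0 := by
    by_contra h1
    have h1' : algebraMap ℚ K (c 1) ≠ 0 := by rwa [Ne, map_eq_zero]
    apply hα (-(c 0) / c 1)
    rw [map_div₀, map_neg]
    field_simp
    linear_combination -hc
  rw [hc1, map_zero, zero_mul, add_zero, map_eq_zero] at hc
  intro i
  fin_cases i
  · exact hc
  · exact hc1
  · exact hc2

theorem normTS_conj (σ : K ≃ₐ[ℚ] K) {α : K} {G : ℕ} (h : NormTS (σ α) G) : NormTS α G := by
  intro e he
  refine (h e he).mono ?_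
  intro x hx
  change ratLam _ = _ at hx
  change ratLam _ = _
  rw [← hx]
  congr 1
  rw [← Algebra.norm_eq_of_algEquiv σ]
  congr 1
  rw [map_sub, map_mul, AlgEquiv.commutes, map_natCast]

/-- From norms to minimal polynomials. -/
theorem minpoly_of_normTS [FiniteDimensional ℚ K] (h3 : finrank ℚ K = 3) {α : K}
    (hα : ∀ r : ℚ, algebraMap ℚ K r ≠ α) {G₁ : ℕ} (hG₁ : 0 < G₁) (h : NormTS α G₁) :
    ∃ G₀ : ℕ, 0 < G₀ ∧ ∀ G : ℕ, 0 < G → G₀ ∣ G →
      IsIntegral ℤ ((G : K) * α) ∧
      ∀ e : ℤ, (e = 1 ∨ e = -1) →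
        {n : ℤ | ArithmeticFunction.liouville
          ((minpoly ℤ ((G : K) * α)).eval n).natAbs = e}.Infinite := by
  have halg : IsAlgebraic ℤ α := by
    have : IsAlgebraic ℚ α := Algebra.IsAlgebraic.isAlgebraic α
    exact (IsFractionRing.isAlgebraic_iff ℤ ℚ K).2 this
  obtain ⟨y, hy0, hy⟩ := halg.exists_integral_multiple
  have hy' : IsIntegral ℤ ((y.natAbs : K) * α) := by
    rcases Int.natAbs_eq y with h1 | h1
    · have : (y.natAbs : K) * α = y • α := by
        rw [zsmul_eq_mul]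
        congr 1
        conv_rhs => rw [h1]
        simp
      rw [this]
      exact hy
    · have : (y.natAbs : K) * α = -(y • α) := by
        rw [zsmul_eq_mul, ← neg_mul]
        congr 1
        conv_rhs => rw [h1]
        simp
      rw [this]
      exact hy.neg
  have hyp : 0 < y.natAbs := Int.natAbs_pos.2 hy0
  refine ⟨y.natAbs * G₁, Nat.mul_pos hyp hG₁, ?_⟩
  rintro _ hG ⟨k, rfl⟩
  have hk : 0 < k := by
    rcases Nat.eq_zero_or_pos k with h1 | h1
    · rw [h1] at hG; simp at hG
    · exact h1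
  have hint : IsIntegral ℤ (((y.natAbs * G₁ * k : ℕ) : K) * α) := by
    have : ((y.natAbs * G₁ * k : ℕ) : K) * α = ((G₁ * k : ℕ) : K) * ((y.natAbs : K) * α) := by
      push_cast
      ring
    rw [this]
    have h0 : IsIntegral ℤ ((G₁ * k : ℕ) : K) := by
      have := isIntegral_algebraMap (R := ℤ) (A := K) (x := ((G₁ * k : ℕ) : ℤ))
      simpa using this
    exact h0.mul hy'
  refine ⟨hint, ?_⟩
  intro e he
  have hTS : NormTS α (y.natAbs * G₁ * k) := by
    have h2 : NormTS α ((y.natAbs * k) * G₁) := h.scale h3 (Nat.mul_pos hyp hk)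
    rwa [show y.natAbs * k * G₁ = y.natAbs * G₁ * k by ring] at h2
  refine (hTS e he).mono ?_
  intro n hn
  change ratLam _ = _ at hn
  change ArithmeticFunction.liouville _ = _
  have hirr : ∀ r : ℚ, algebraMap ℚ K r ≠ ((y.natAbs * G₁ * k : ℕ) : K) * α := by
    intro r hr
    have := sub_ne_zero_of_irr hα hG 0
    have hGq : ((y.natAbs * G₁ * k : ℕ) : ℚ) ≠ 0 := by exact_mod_cast hG.ne'
    have hGK : algebraMap ℚ K ((y.natAbs * G₁ * k : ℕ) : ℚ) ≠ 0 := by rwa [Ne, map_eq_zero]
    apply hα (r / ((y.natAbs * G₁ * k : ℕ) : ℚ))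
    rw [map_div₀, div_eq_iff hGK, hr, map_natCast, mul_comm]
  have h1 : (((minpoly ℤ (((y.natAbs * G₁ * k : ℕ) : K) * α)).eval n : ℤ) : ℚ) =
      Algebra.norm ℚ (algebraMap ℚ K (n : ℚ) - ((y.natAbs * G₁ * k : ℕ) : K) * α) := by
    rw [← eval_minpoly h3 hirr, minpoly.isIntegrallyClosed_eq_field_fractions' ℚ hint,
      Polynomial.eval_intCast_map]
    simp
  rw [← ratLam_intCast, h1, ← hn]

end Pool.Agent.H37
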